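import Pool.Agent.MP_e9d43c_an.H41.Transfer

/-!
Whether a separable C*-algebra has a maximal embedding into an ultrapower of the Cuntz algebra on
two generators does not depend on the nonprincipal ultrafilter.
-/

namespace Pool.Agent.Results.MP_e9d43c_an.MaxTransfer

open Filter Topology BoundedContinuousFunction Pool.Agent.MP_e9d43c_an.H41

/-- `φ ≤ ψ`: some `u` with `u u* u = u` satisfies `u* ψ(a) u = φ(a)` for all `a`. -/
def EmbLE {A M : Type} [Ring M] [StarRing M] (φ ψ : A → M) : Prop :=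
  ∃ u : M, u * star u * u = u ∧ ∀ a, star u * ψ a * u = φ a

/-- Among the injective maps of the kind `F` there is a maximal one. -/
def HasMax (F A M : Type) [FunLike F A M] [Ring M] [StarRing M] : Prop :=
  ∃ φ : F, Function.Injective φ ∧ ∀ ψ : F, Function.Injective ψ → EmbLE φ ψ → EmbLE ψ φ

/-- Some injective map of the kind `F` lies above every map of the kind `F`. -/
def HasTop (F A M : Type) [FunLike F A M] [Ring M] [StarRing M] : Prop :=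
  ∃ φ : F, Function.Injective φ ∧ ∀ ψ : F, EmbLE ψ φ

theorem result (O : Type) [CStarAlgebra O] [Nontrivial O] (s₁ s₂ : O)
    (h₁ : star s₁ * s₁ = 1) (h₂ : star s₂ * s₂ = 1) (hsum : s₁ * star s₁ + s₂ * star s₂ = 1)
    (U V : Ultrafilter ℕ) (hU : (U : Filter ℕ) ≤ Filter.cofinite)
    (hV : (V : Filter ℕ) ≤ Filter.cofinite) (M N : Type) [CStarAlgebra M] [CStarAlgebra N]
    (q : (ℕ →ᵇ O) →⋆ₐ[ℂ] M) (r : (ℕ →ᵇ O) →⋆ₐ[ℂ] N)
    (hq : Function.Surjective q) (hr : Function.Surjective r)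
    (kq : ∀ x, q x = 0 ↔ Filter.Tendsto (fun n => ‖x n‖) (U : Filter ℕ) (nhds 0))
    (kr : ∀ x, r x = 0 ↔ Filter.Tendsto (fun n => ‖x n‖) (V : Filter ℕ) (nhds 0)) :
    (∀ (A : Type) [NonUnitalCStarAlgebra A] [TopologicalSpace.SeparableSpace A],
      HasMax (A →⋆ₙₐ[ℂ] M) A M → HasTop (A →⋆ₙₐ[ℂ] N) A N) ∧
    (∀ (A : Type) [CStarAlgebra A] [TopologicalSpace.SeparableSpace A],
      HasMax (A →⋆ₐ[ℂ] M) A M → HasTop (A →⋆ₐ[ℂ] N) A N) := by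
  refine ⟨fun A _ _ ⟨φ, h1, h2⟩ => ?_, fun A _ _ ⟨φ, h1, h2⟩ => ?_⟩
  · obtain ⟨χ, c1, -, c2⟩ := transfer ⟨h₁, h₂, hsum⟩ False 0 ⟨hU, hq, kq⟩ ⟨hV, hr, kr⟩ φ h1
      False.elim fun ψ hψ _ => h2 ψ hψ
    refine ⟨χ, c1, fun ψ => ?_⟩
    obtain ⟨u, u1, u2⟩ := c2 ψ False.elim
    exact ⟨u, pi_of_iso u1, u2⟩
  · obtain ⟨χ, c1, c3, c2⟩ := transfer ⟨h₁, h₂, hsum⟩ True 1 ⟨hU, hq, kq⟩ ⟨hV, hr, kr⟩
      (φ : A →⋆ₙₐ[ℂ] M) h1 (fun _ => map_one φ)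
      fun ψ hψ e => h2 (toUnital ψ (e trivial)) hψ
    refine ⟨toUnital χ (c3 trivial), c1, fun ψ => ?_⟩
    obtain ⟨u, u1, u2⟩ := c2 (ψ : A →⋆ₙₐ[ℂ] N) fun _ => map_one ψ
    exact ⟨u, pi_of_iso u1, u2⟩

end Pool.Agent.Results.MP_e9d43c_an.MaxTransfer
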