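import Pool.Agent.MP_e9d43c_an.H41.Final

/-!
A closed subalgebra of the algebra of continuous functions from the unit interval to the Cuntz
algebra on two generators that has no maximal embedding in any ultrapower of the Cuntz algebra.
-/

namespace Pool.Agent.Results.MP_e9d43c_an.NoMaximalExact

open Filter Topology BoundedContinuousFunction Pool.Agent.MP_e9d43c_an.H44
  Pool.Agent.MP_e9d43c_an.H41

theorem result (O : Type) [CStarAlgebra O] [Nontrivial O] (s₁ s₂ : O)
    (h₁ : star s₁ * s₁ = 1) (h₂ : star s₂ * s₂ = 1) (hsum : s₁ * star s₁ + s₂ * star s₂ = 1)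
    (hgen : (StarAlgebra.adjoin ℂ {s₁, s₂}).topologicalClosure = ⊤) :
    ∃ A : StarSubalgebra ℂ C(unitInterval, O), IsClosed (A : Set C(unitInterval, O)) ∧
      TopologicalSpace.SeparableSpace A ∧
      ∀ U : Ultrafilter ℕ, (U : Filter ℕ) ≤ Filter.cofinite →
        ∀ (M : Type) [CStarAlgebra M] (q : (ℕ →ᵇ O) →⋆ₐ[ℂ] M), Function.Surjective q →
          (∀ x, q x = 0 ↔ Filter.Tendsto (fun n => ‖x n‖) (U : Filter ℕ) (nhds 0)) →
          (∃ φ : A →⋆ₐ[ℂ] M, Function.Injective φ) ∧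
          ∀ φ : A →⋆ₙₐ[ℂ] M, Function.Injective φ →
            ∃ ψ : A →⋆ₙₐ[ℂ] M, Function.Injective ψ ∧ (φ 1 = 1 → ψ 1 = 1) ∧
              (∃ v : M, star v * v = 1 ∧ ∀ a, star v * ψ a * v = φ a) ∧
              ¬∃ u : M, ∀ a, star u * φ a * u = ψ a := by
  classical
  have hO : Cz s₁ s₂ := ⟨h₁, h₂, hsum⟩
  let s : ℕ → O := fun i => if i = 0 then s₁ else s₂
  have hs : Iso s := by
    intro i hi j hj
    interval_cases i <;> interval_cases j <;> simp [s, h₁, h₂, hO.st, hO.ts]
  have hd : Dense (Pool.Agent.MP_e9d43c_an.H44.Poly s : Set O) := by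
    have e : (Pool.Agent.MP_e9d43c_an.H44.Poly s : Set O) =
        (StarAlgebra.adjoin ℂ {s₁, s₂} : Set O) := by
      rw [← StarSubalgebra.coe_toSubalgebra, StarAlgebra.adjoin_toSubalgebra,
        Pool.Agent.MP_e9d43c_an.H44.Poly]
      congr 2
      ext b
      simp only [s, if_true, one_ne_zero, if_false, Set.mem_insert_iff, Set.mem_singleton_iff,
        Set.mem_union, Set.mem_star, star_eq_iff_star_eq, eq_comm (a := b)]
      tauto
    rw [e, dense_iff_closure_eq, ← StarSubalgebra.topologicalClosure_coe, hgen]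
    rfl
  obtain ⟨v, hv, hv'⟩ := exists_free hs hsum
  have hA : IsClosed (cone v : Set C(unitInterval, O)) :=
    StarSubalgebra.isClosed_topologicalClosure _
  refine ⟨cone v, hA, separable_cone v, fun U hU M _ q hq hker => ⟨?_, fun φ hφ => ?_⟩⟩
  · obtain ⟨Ψ, hΨ⟩ := exists_emb hO ⟨hU, hq, hker⟩
    exact ⟨Ψ.comp (cone v).subtype, hΨ.comp Subtype.val_injective⟩
  · obtain ⟨χ, hχ⟩ := exists_far hs hd hv hv' ⟨hU, hq, hker⟩
      (fun i => φ ⟨gen v (.of i), gen_mem v _⟩) fun i =>
      (hom_le (A := cone v) φ _).trans ((ContinuousMap.norm_le _ zero_le_one).2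
        fun t => by
          change ‖((t : ℝ) : ℂ) • v (.of i)‖ ≤ 1
          rw [norm_smul, Complex.norm_real, Real.norm_of_nonneg t.2.1]
          exact mul_le_one₀ t.2.2 (norm_nonneg _) ((hv.norm_le _).trans_eq (add_zero 1)))
    exact finish (A := cone v) (hO.map q) φ hφ χ _ hχ

end Pool.Agent.Results.MP_e9d43c_an.NoMaximalExact
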